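import Pool.Agent.H93.SP.Targets

/-!
# Module KP (MP_2059f1_ag): two spheres generate the homology of the model.
-/

open Topology Set
open scoped unitInterval ContinuousMap
open Pool.Agent.H59 Pool.Agent.H64.LB

namespace Pool.Agent.H67.SPM.KP

open Pool.Agent.H93.SPB

noncomputable section

theorem mc {X Y Y' : Type} [TopologicalSpace X] [TopologicalSpace Y] [TopologicalSpace Y']
    {q : ℕ} (f : C(X, Y)) (g : C(Y, Y')) (h : C(X, Y')) (e : ∀ x, g (f x) = h x)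
    (x : HH ℚ q X) : HH.map ℚ q g (HH.map ℚ q f x) = HH.map ℚ q h x := by
  rw [← HH.map_comp]
  congr 2
  ext1 x
  exact e x

theorem zm_hom (Z : Type) [TopologicalSpace Z] {A A' : Type} [TopologicalSpace A]
    [TopologicalSpace A'] {f g : C(A, A')} (h : f.Homotopic g) : (zm Z f).Homotopic (zm Z g) := by
  obtain ⟨F⟩ := h
  exact ⟨{ toFun := fun p => (p.2.1, F (p.1, p.2.2))
           continuous_toFun := by fun_prop
           map_zero_left := fun w => Prod.ext rfl (by simp [zm])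
           map_one_left := fun w => Prod.ext rfl (by simp [zm]) }⟩

/-- the open sets -/
def SS (n : ℕ) (j : Fin 3) : Set (OO n) := {w | w.1.2 ≠ 0 ∨ w.1.1 ∈ Om 0 ∨ w.1.1 ∈ Om j}

theorem mem_OO (hOM : T_OM) {n : ℕ} {j : Fin 3} {a : ℂ} {x : Fin n → ℝ}
    (h : x ≠ 0 ∨ a ∈ Om 0 ∨ a ∈ Om j) :
    ¬ ((a, x).2 = 0 ∧ ∃ t : ℝ, t ≤ 0 ∧ (a, x).1 ^ 3 = (t : ℂ)) := by
  rintro ⟨h1, h2⟩
  rcases h with h | h | h
  · exact h h1
  · exact (hOM.1 a).2 ⟨_, h⟩ h2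
  · exact (hOM.1 a).2 ⟨_, h⟩ h2

theorem isOpen_SS (hOM : T_OM) (n : ℕ) (j : Fin 3) : IsOpen (SS n j) := by
  have h1 : IsOpen {w : OO n | w.1.2 ≠ 0} := by
    have : {w : OO n | w.1.2 ≠ 0} = (fun w : OO n => w.1.2) ⁻¹' {0}ᶜ := rfl
    rw [this]
    exact isOpen_compl_singleton.preimage (by fun_prop)
  have h2 : ∀ j, IsOpen {w : OO n | w.1.1 ∈ Om j} := fun j =>
    (hOM.2.1 j).preimage (by fun_prop : Continuous fun w : OO n => w.1.1)
  exact h1.union ((h2 0).union (h2 j))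

/-- the point of the plane -/
def pt (e : ℂ) (s : ℝ) : ℂ := ((max s 0 : ℝ) : ℂ) + ((max (-s) 0 : ℝ) : ℂ) * e

theorem pt_pos (e : ℂ) {s : ℝ} (h : 0 < s) : pt e s = (s : ℂ) * 1 := by
  rw [pt, max_eq_left h.le, max_eq_right (by linarith)]
  simp

theorem pt_neg (e : ℂ) {s : ℝ} (h : s < 0) : pt e s = ((-s : ℝ) : ℂ) * e := by
  rw [pt, max_eq_right h.le, max_eq_left (by linarith)]
  simp

theorem pt_mem (hOM : T_OM) {j : Fin 3} {e : ℂ} (he : e ∈ Om j) {s : ℝ} (hs : s ≠ 0) :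
    pt e s ∈ Om 0 ∨ pt e s ∈ Om j := by
  rcases lt_or_gt_of_ne hs with h | h
  · right
    rw [pt_neg e h]
    exact hOM.2.2.2.1 j e he _ (by linarith)
  · left
    rw [pt_pos e h]
    exact hOM.2.2.2.1 0 1 hOM.2.2.2.2.1 _ h

theorem vmem (hOM : T_OM) {n : ℕ} {j : Fin 3} {e : ℂ} (he : e ∈ Om j) (p : AA n) :
    p.1.1 ≠ 0 ∨ pt e p.1.2 ∈ Om 0 ∨ pt e p.1.2 ∈ Om j := by
  by_cases h : p.1.1 = 0
  · right
    apply pt_mem hOM he
    intro h2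
    exact p.2 (Prod.ext h h2)
  · exact Or.inl h

theorem cont_pt (e : ℂ) : Continuous (pt e) := by
  unfold pt
  fun_prop

/-- the map from the punctured space -/
def vv (hOM : T_OM) (n : ℕ) {j : Fin 3} {e : ℂ} (he : e ∈ Om j) : C(AA n, SS n j) :=
  ⟨fun p => ⟨⟨(pt e p.1.2, p.1.1), mem_OO hOM (vmem hOM he p)⟩, vmem hOM he p⟩, by
    have := cont_pt e
    fun_prop⟩

theorem bne {n : ℕ} {j : Fin 3} (lam : ℂ → ℝ) (h0 : ∀ t ∈ Om 0, 0 < lam t)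
    (hj : ∀ t ∈ Om j, lam t < 0) (w : SS n j) : (w.1.1.2, lam w.1.1.1) ≠ (0 : (Fin n → ℝ) × ℝ) := by
  intro h
  have h1 : w.1.1.2 = 0 := congrArg Prod.fst h
  have h2 : lam w.1.1.1 = 0 := congrArg Prod.snd h
  rcases w.2 with h3 | h3 | h3
  · exact h3 h1
  · exact (h0 _ h3).ne' h2
  · exact (hj _ h3).ne h2

/-- the map to the punctured space -/
def bb {n : ℕ} {j : Fin 3} (lam : ℂ → ℝ) (hl : Continuous lam) (h0 : ∀ t ∈ Om 0, 0 < lam t)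
    (hj : ∀ t ∈ Om j, lam t < 0) : C(SS n j, AA n) :=
  ⟨fun w => ⟨(w.1.1.2, lam w.1.1.1), bne lam h0 hj w⟩, by fun_prop⟩

theorem hmem (hOM : T_OM) {n : ℕ} {j : Fin 3} {e : ℂ} (he : e ∈ Om j) (lam : ℂ → ℝ)
    (h0 : ∀ t ∈ Om 0, 0 < lam t) (hj : ∀ t ∈ Om j, lam t < 0) (r : I) (w : SS n j) :
    w.1.1.2 ≠ 0 ∨
      (1 - (r : ℝ)) • pt e (lam w.1.1.1) + (r : ℝ) • w.1.1.1 ∈ Om 0 ∨
      (1 - (r : ℝ)) • pt e (lam w.1.1.1) + (r : ℝ) • w.1.1.1 ∈ Om j := by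
  rcases w.2 with h | h | h
  · exact Or.inl h
  · right; left
    have h1 := h0 _ h
    rw [pt_pos e h1]
    exact hOM.2.2.1 0 (hOM.2.2.2.1 0 1 hOM.2.2.2.2.1 _ h1) h (by linarith [r.2.2]) r.2.1 (by ring)
  · right; right
    have h1 := hj _ h
    rw [pt_neg e h1]
    exact hOM.2.2.1 j (hOM.2.2.2.1 j e he _ (by linarith)) h (by linarith [r.2.2]) r.2.1 (by ring)

theorem homv (hOM : T_OM) {n : ℕ} {j : Fin 3} {e : ℂ} (he : e ∈ Om j) (lam : ℂ → ℝ)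
    (hl : Continuous lam) (h0 : ∀ t ∈ Om 0, 0 < lam t) (hj : ∀ t ∈ Om j, lam t < 0) :
    ((vv hOM n he).comp (bb lam hl h0 hj)).Homotopic (ContinuousMap.id (SS n j)) := by
  have hc := cont_pt e
  refine ⟨{ toFun := fun p => ⟨⟨((1 - (p.1 : ℝ)) • pt e (lam p.2.1.1.1) +
              (p.1 : ℝ) • p.2.1.1.1, p.2.1.1.2), mem_OO hOM (hmem hOM he lam h0 hj p.1 p.2)⟩,
              hmem hOM he lam h0 hj p.1 p.2⟩
            continuous_toFun := by fun_prop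
            map_zero_left := fun w => ?_
            map_one_left := fun w => ?_ }⟩
  · apply Subtype.ext
    apply Subtype.ext
    simp [vv, bb]
  · apply Subtype.ext
    apply Subtype.ext
    simp

theorem surj (hHI : T_HI) (hOM : T_OM) {n : ℕ} {j : Fin 3} {e : ℂ} (he : e ∈ Om j) (lam : ℂ → ℝ)
    (hl : Continuous lam) (h0 : ∀ t ∈ Om 0, 0 < lam t) (hj : ∀ t ∈ Om j, lam t < 0)
    (Z : Type) [TopologicalSpace Z] (q : ℕ) (y : HH ℚ q (Z × SS n j)) :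
    ∃ y' : HH ℚ q (Z × AA n), y = HH.map ℚ q (zm Z (vv hOM n he)) y' := by
  refine ⟨HH.map ℚ q (zm Z (bb lam hl h0 hj)) y, ?_⟩
  have h1 := hHI _ _ _ _ (zm_hom Z (homv hOM (n := n) he lam hl h0 hj)) q
  rw [mc _ _ (zm Z ((vv hOM n he).comp (bb lam hl h0 hj))) (fun _ => rfl), h1]
  have : zm Z (ContinuousMap.id (SS n j)) = ContinuousMap.id _ := by
    ext1 p
    rfl
  rw [this, HH.map_id]

theorem cap_iff (hOM : T_OM) {n : ℕ} (w : OO n) :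
    w ∈ SS n 1 ∩ SS n 2 ↔ w.1.2 ≠ 0 ∨ w.1.1 ∈ Om 0 := by
  constructor
  · rintro ⟨h1, h2⟩
    rcases h1 with h1 | h1 | h1
    · exact Or.inl h1
    · exact Or.inr h1
    · rcases h2 with h2 | h2 | h2
      · exact Or.inl h2
      · exact Or.inr h2
      · exfalso
        have e1 : 0 < w.1.1.im := h1.1
        have e2 : 0 < -w.1.1.im := h2.1
        linarith
  · rintro (h | h)
    · exact ⟨Or.inl h, Or.inl h⟩
    · exact ⟨Or.inr (Or.inl h), Or.inr (Or.inl h)⟩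

theorem union_eq (hOM : T_OM) (n : ℕ) : SS n 1 ∪ SS n 2 = univ := by
  ext w
  simp only [mem_union, mem_univ, iff_true]
  by_cases h : w.1.2 = 0
  · have h2 : ¬ ∃ s : ℝ, s ≤ 0 ∧ w.1.1 ^ 3 = (s : ℂ) := fun h3 => w.2 ⟨h, h3⟩
    obtain ⟨j, hj⟩ := (hOM.1 _).1 h2
    fin_cases j
    · left; right; left; exact hj
    · left; right; right; exact hj
    · right; right; right; exact hj
  · left; left; exact h

/-- the base point of the intersection -/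
def c0 (hOM : T_OM) (n : ℕ) : ↥(SS n 1 ∩ SS n 2) :=
  ⟨⟨(1, 0), mem_OO hOM (j := 0) (Or.inr (Or.inl hOM.2.2.2.2.1))⟩,
    (cap_iff hOM _).2 (Or.inr hOM.2.2.2.2.1)⟩

theorem cmem (hOM : T_OM) {n : ℕ} (r : I) (w : ↥(SS n 1 ∩ SS n 2)) :
    (r : ℝ) • w.1.1.2 ≠ 0 ∨ (1 - (r : ℝ)) • (1 : ℂ) + (r : ℝ) • w.1.1.1 ∈ Om 0 := by
  rcases (cap_iff hOM _).1 w.2 with h | h
  · by_cases hr : (r : ℝ) = 0
    · right
      rw [hr]
      simpa using hOM.2.2.2.2.1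
    · left
      exact smul_ne_zero hr h
  · right
    exact hOM.2.2.1 0 hOM.2.2.2.2.1 h (by linarith [r.2.2]) r.2.1 (by ring)

theorem hom_c (hOM : T_OM) (n : ℕ) :
    (ContinuousMap.const ↥(SS n 1 ∩ SS n 2) (c0 hOM n)).Homotopic (ContinuousMap.id _) := by
  have key : ∀ (r : I) (w : ↥(SS n 1 ∩ SS n 2)), (r : ℝ) • w.1.1.2 ≠ 0 ∨
      (1 - (r : ℝ)) • (1 : ℂ) + (r : ℝ) • w.1.1.1 ∈ Om 0 ∨
      (1 - (r : ℝ)) • (1 : ℂ) + (r : ℝ) • w.1.1.1 ∈ Om 0 := by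
    intro r w
    rcases cmem hOM r w with h | h
    · exact Or.inl h
    · exact Or.inr (Or.inl h)
  refine ⟨{ toFun := fun p => ⟨⟨((1 - (p.1 : ℝ)) • (1 : ℂ) + (p.1 : ℝ) • p.2.1.1.1,
              (p.1 : ℝ) • p.2.1.1.2), mem_OO hOM (key p.1 p.2)⟩,
              (cap_iff hOM _).2 (cmem hOM p.1 p.2)⟩
            continuous_toFun := by fun_prop
            map_zero_left := fun w => ?_
            map_one_left := fun w => ?_ }⟩
  · apply Subtype.ext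
    apply Subtype.ext
    simp [c0]
  · apply Subtype.ext
    apply Subtype.ext
    simp

theorem inj_c (hHI : T_HI) (hOM : T_OM) (n : ℕ) (Z : Type) [TopologicalSpace Z] (q : ℕ)
    (x : HH ℚ q (Z × ↥(SS n 1 ∩ SS n 2)))
    (h : HH.map ℚ q (zm Z (inc (inter_subset_left : SS n 1 ∩ SS n 2 ⊆ SS n 1))) x = 0) :
    x = 0 := by
  let s : C(Z, Z × ↥(SS n 1 ∩ SS n 2)) := ⟨fun z => (z, c0 hOM n), by fun_prop⟩
  let pr : C(Z × ↥(SS n 1), Z) := ⟨fun z => z.1, by fun_prop⟩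
  have h1 := hHI _ _ _ _ (zm_hom Z (hom_c hOM n)) q
  have e1 : zm Z (ContinuousMap.id ↥(SS n 1 ∩ SS n 2)) = ContinuousMap.id _ := by
    ext1 p
    rfl
  have e2 : HH.map ℚ q (zm Z (ContinuousMap.const ↥(SS n 1 ∩ SS n 2) (c0 hOM n))) x = x := by
    rw [h1, e1, HH.map_id]
  rw [← e2]
  have e3 : HH.map ℚ q (zm Z (ContinuousMap.const ↥(SS n 1 ∩ SS n 2) (c0 hOM n))) x =
      HH.map ℚ q s (HH.map ℚ q pr
        (HH.map ℚ q (zm Z (inc (inter_subset_left : SS n 1 ∩ SS n 2 ⊆ SS n 1))) x)) := by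
    rw [mc _ pr (pr.comp (zm Z (inc (inter_subset_left : SS n 1 ∩ SS n 2 ⊆ SS n 1))))
      (fun _ => rfl)]
    exact (mc _ _ _ (fun _ => rfl) x).symm
  rw [e3, h, map_zero, map_zero]

theorem kp (hMV : T_MVP) (hHI : T_HI) (hOM : T_OM) : T_KP := by
  intro n _
  have hI : Complex.I ∈ Om 1 := hOM.2.2.2.2.2.1
  have hI' : -Complex.I ∈ Om 2 := hOM.2.2.2.2.2.2.1
  obtain ⟨o1, o2, o3, o4⟩ := hOM.2.2.2.2.2.2.2
  refine ⟨![(vl (SS n 1)).comp (vv hOM n hI), (vl (SS n 2)).comp (vv hOM n hI')], ?_⟩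
  intro Z _ q x
  have key : ∃ (y : HH ℚ q (Z × SS n 1)) (z : HH ℚ q (Z × SS n 2)),
      x = HH.map ℚ q (zm Z (vl (SS n 1))) y + HH.map ℚ q (zm Z (vl (SS n 2))) z := by
    obtain ⟨D, D1, -, D3, D4, -⟩ := hMV Z (OO n) (SS n 1) (SS n 2) (isOpen_SS hOM n 1)
      (isOpen_SS hOM n 2) (union_eq hOM n)
    cases q with
    | zero => exact D4 x
    | succ q => exact D1 q x (inj_c hHI hOM n Z q _ (D3 q x).1)
  obtain ⟨y, z, hx⟩ := key
  obtain ⟨y', hy'⟩ := surj hHI hOM hI (fun t => √3 * t.re - t.im) (by fun_prop)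
    (fun t ht => by have := o1 t ht; linarith) (fun t ht => by have := o2 t ht; linarith) Z q y
  obtain ⟨z', hz'⟩ := surj hHI hOM hI' (fun t => √3 * t.re + t.im) (by fun_prop)
    (fun t ht => o3 t ht) (fun t ht => o4 t ht) Z q z
  refine ⟨![y', z'], ?_⟩
  rw [Fin.sum_univ_two, hx, hy', hz']
  congr 1
  · exact mc _ _ _ (fun _ => rfl) _
  · exact mc _ _ _ (fun _ => rfl) _

end

end Pool.Agent.H67.SPM.KP
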