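import Pool.Agent.H93.SP.Targets

/-!
# Module SW (MP_2059f1_ag): the swap lemma.
-/

open Topology Set
open scoped unitInterval ContinuousMap
open Pool.Agent.H59 Pool.Agent.H64.LB

namespace Pool.Agent.H67.SPM.SW

open Pool.Agent.H93.SPB

noncomputable section

abbrev E : Type := (Fin 3 → ℝ) × ℝ

abbrev W : Type := {w : E × E // w ≠ 0}

def SA : Set W := {w | w.1.1 ≠ 0}
def SB : Set W := {w | w.1.2 ≠ 0}

theorem isOpen_SA : IsOpen SA := by
  have : SA = (fun w : W => w.1.1) ⁻¹' {0}ᶜ := rfl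
  rw [this]
  exact isOpen_compl_singleton.preimage (by fun_prop)

theorem isOpen_SB : IsOpen SB := by
  have : SB = (fun w : W => w.1.2) ⁻¹' {0}ᶜ := rfl
  rw [this]
  exact isOpen_compl_singleton.preimage (by fun_prop)

theorem union_eq : SA ∪ SB = univ := by
  ext w
  simp only [mem_union, mem_univ, iff_true, SA, SB, mem_ofPred_eq]
  by_contra h
  push Not at h
  exact w.2 (Prod.ext h.1 h.2)

theorem ne_of_fst {u v : E} (h : u ≠ 0) : (u, v) ≠ (0 : E × E) := fun h' =>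
  h (congrArg Prod.fst h')

theorem ne_of_snd {u v : E} (h : v ≠ 0) : (u, v) ≠ (0 : E × E) := fun h' =>
  h (congrArg Prod.snd h')

/-- `AA 3 × AA 3` is the intersection -/
def iP : C(AA 3 × AA 3, ↥(SA ∩ SB)) :=
  ⟨fun p => ⟨⟨(p.1.1, p.2.1), ne_of_fst p.1.2⟩, p.1.2, p.2.2⟩, by fun_prop⟩

def jP : C(↥(SA ∩ SB), AA 3 × AA 3) :=
  ⟨fun w => (⟨w.1.1.1, w.2.1⟩, ⟨w.1.1.2, w.2.2⟩), by fun_prop⟩

/-- the exchange -/
def tau : C(W, W) :=
  ⟨fun w => ⟨(w.1.2, w.1.1), fun h => w.2 (Prod.ext (congrArg Prod.snd h) (congrArg Prod.fst h))⟩,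
    by fun_prop⟩

theorem tau_AB : MapsTo tau SA SB := fun _ h => h
theorem tau_BA : MapsTo tau SB SA := fun _ h => h
theorem tau_cap : MapsTo tau (SA ∩ SB) (SA ∩ SB) := fun _ h => ⟨h.2, h.1⟩

/-- complex structure -/
def J (y : E) : E := (![-y.1 1, y.1 0, -y.2], y.1 2)

theorem J_J (y : E) : J (J y) = -y := by
  obtain ⟨x, s⟩ := y
  refine Prod.ext ?_ ?_
  · funext i
    fin_cases i <;> simp [J]
  · simp [J]

theorem J_add (y y' : E) : J (y + y') = J y + J y' := by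
  obtain ⟨x, s⟩ := y
  obtain ⟨x', s'⟩ := y'
  refine Prod.ext ?_ ?_
  · funext i
    fin_cases i <;> simp [J] <;> ring
  · simp [J]

theorem J_smul (c : ℝ) (y : E) : J (c • y) = c • J y := by
  obtain ⟨x, s⟩ := y
  refine Prod.ext ?_ ?_
  · funext i
    fin_cases i <;> simp [J]
  · simp [J]

theorem J_cont : Continuous J := by
  unfold J
  refine Continuous.prodMk ?_ (by fun_prop)
  refine continuous_pi fun i => ?_
  fin_cases i
  · change Continuous fun x : E => -x.1 1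
    fun_prop
  · change Continuous fun x : E => x.1 0
    fun_prop
  · change Continuous fun x : E => -x.2
    fun_prop

theorem lin_ne (c s : ℝ) (h : 0 < c ^ 2 + s ^ 2) (y : E) (hy : c • y + s • J y = 0) : y = 0 := by
  have h1 : c • (c • y + s • J y) - s • J (c • y + s • J y) = (c ^ 2 + s ^ 2) • y := by
    rw [J_add, J_smul, J_smul, J_J]
    module
  rw [hy] at h1
  have h2 : J 0 = 0 := by
    have := J_smul 0 0
    simpa using this
  rw [h2, smul_zero, smul_zero, sub_zero] at h1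
  rcases smul_eq_zero.1 h1.symm with h3 | h3
  · exact absurd h3 h.ne'
  · exact h3

/-- the intermediate map -/
def mid : C(W, W) :=
  ⟨fun w => ⟨(-w.1.2, w.1.1), fun h => w.2 (Prod.ext (congrArg Prod.snd h)
    (neg_eq_zero.1 (congrArg Prod.fst h)))⟩, by fun_prop⟩

theorem rot_ne (t : ℝ) (w : W) :
    ((1 - t) • w.1.1 - t • w.1.2, t • w.1.1 + (1 - t) • w.1.2) ≠ (0 : E × E) := by
  intro h
  have h1 : (1 - t) • w.1.1 - t • w.1.2 = 0 := congrArg Prod.fst h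
  have h2 : t • w.1.1 + (1 - t) • w.1.2 = 0 := congrArg Prod.snd h
  have hd : (1 - t) ^ 2 + t ^ 2 ≠ 0 := by nlinarith [sq_nonneg (1 - 2 * t)]
  have h3 : ((1 - t) ^ 2 + t ^ 2) • w.1.1 = 0 := by
    have : ((1 - t) ^ 2 + t ^ 2) • w.1.1 = (1 - t) • ((1 - t) • w.1.1 - t • w.1.2) +
      t • (t • w.1.1 + (1 - t) • w.1.2) := by module
    rw [this, h1, h2, smul_zero, smul_zero, add_zero]
  have h4 : ((1 - t) ^ 2 + t ^ 2) • w.1.2 = 0 := by
    have : ((1 - t) ^ 2 + t ^ 2) • w.1.2 = (1 - t) • (t • w.1.1 + (1 - t) • w.1.2) -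
      t • ((1 - t) • w.1.1 - t • w.1.2) := by module
    rw [this, h1, h2, smul_zero, smul_zero, sub_zero]
  exact w.2 (Prod.ext ((smul_eq_zero.1 h3).resolve_left hd) ((smul_eq_zero.1 h4).resolve_left hd))

theorem hom1 : (ContinuousMap.id W).Homotopic mid := by
  refine ⟨{ toFun := fun p => ⟨((1 - (p.1 : ℝ)) • p.2.1.1 - (p.1 : ℝ) • p.2.1.2,
              (p.1 : ℝ) • p.2.1.1 + (1 - (p.1 : ℝ)) • p.2.1.2), rot_ne _ _⟩
            continuous_toFun := by fun_prop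
            map_zero_left := fun w => ?_
            map_one_left := fun w => ?_ }⟩
  · apply Subtype.ext
    simp
  · apply Subtype.ext
    simp [mid]

theorem jr_ne (t : ℝ) (w : W) :
    ((1 - 2 * t) • (-w.1.2) + (t * (1 - t)) • J (-w.1.2), w.1.1) ≠ (0 : E × E) := by
  intro h
  have h1 : (1 - 2 * t) • (-w.1.2) + (t * (1 - t)) • J (-w.1.2) = 0 := congrArg Prod.fst h
  have h2 : w.1.1 = 0 := congrArg Prod.snd h
  have hd : 0 < (1 - 2 * t) ^ 2 + (t * (1 - t)) ^ 2 := by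
    rcases eq_or_ne (1 - 2 * t) 0 with h0 | h0
    · have : t = 1 / 2 := by linarith
      subst this
      norm_num
    · have := sq_pos_of_ne_zero h0
      positivity
  have h3 := lin_ne _ _ hd _ h1
  exact w.2 (Prod.ext h2 (neg_eq_zero.1 h3))

theorem hom2 : mid.Homotopic tau := by
  refine ⟨{ toFun := fun p => ⟨((1 - 2 * (p.1 : ℝ)) • (-p.2.1.2) +
              ((p.1 : ℝ) * (1 - (p.1 : ℝ))) • J (-p.2.1.2), p.2.1.1), jr_ne _ _⟩
            continuous_toFun := ?_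
            map_zero_left := fun w => ?_
            map_one_left := fun w => ?_ }⟩
  · have := J_cont
    fun_prop
  · apply Subtype.ext
    simp [mid]
  · apply Subtype.ext
    simp [tau]
    norm_num

theorem zm_hom (Z : Type) [TopologicalSpace Z] {A A' : Type} [TopologicalSpace A]
    [TopologicalSpace A'] {f g : C(A, A')} (h : f.Homotopic g) : (zm Z f).Homotopic (zm Z g) := by
  obtain ⟨F⟩ := h
  exact ⟨{ toFun := fun p => (p.2.1, F (p.1, p.2.2))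
           continuous_toFun := by fun_prop
           map_zero_left := fun w => Prod.ext rfl (by simp [zm])
           map_one_left := fun w => Prod.ext rfl (by simp [zm]) }⟩

variable {Z : Type} [TopologicalSpace Z]

theorem mc {X Y Y' : Type} [TopologicalSpace X] [TopologicalSpace Y] [TopologicalSpace Y']
    {q : ℕ} (f : C(X, Y)) (g : C(Y, Y')) (h : C(X, Y')) (e : ∀ x, g (f x) = h x)
    (x : HH ℚ q X) : HH.map ℚ q g (HH.map ℚ q f x) = HH.map ℚ q h x := by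
  rw [← HH.map_comp]
  congr 2
  ext1 x
  exact e x

/-- projections and inclusions -/
def p1 (Z : Type) [TopologicalSpace Z] : C(Z × (AA 3 × AA 3), Z × AA 3) :=
  ⟨fun w => (w.1, w.2.1), by fun_prop⟩
def p2 (Z : Type) [TopologicalSpace Z] : C(Z × (AA 3 × AA 3), Z × AA 3) :=
  ⟨fun w => (w.1, w.2.2), by fun_prop⟩
def p0 (Z : Type) [TopologicalSpace Z] : C(Z × (AA 3 × AA 3), Z) :=
  ⟨fun w => w.1, by fun_prop⟩
def A1 (Z : Type) [TopologicalSpace Z] (a : AA 3) : C(Z × AA 3, Z × (AA 3 × AA 3)) :=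
  ⟨fun w : Z × AA 3 => (w.1, (w.2, a)), by fun_prop⟩
def A2 (Z : Type) [TopologicalSpace Z] (a : AA 3) : C(Z × AA 3, Z × (AA 3 × AA 3)) :=
  ⟨fun w : Z × AA 3 => (w.1, (a, w.2)), by fun_prop⟩
def BZ (Z : Type) [TopologicalSpace Z] (a : AA 3) : C(Z, Z × AA 3) :=
  ⟨fun z => (z, a), by fun_prop⟩
def A0 (Z : Type) [TopologicalSpace Z] (a : AA 3) : C(Z, Z × (AA 3 × AA 3)) :=
  ⟨fun z => (z, (a, a)), by fun_prop⟩
def Sw (Z : Type) [TopologicalSpace Z] : C(Z × (AA 3 × AA 3), Z × (AA 3 × AA 3)) :=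
  ⟨fun w : Z × (AA 3 × AA 3) => (w.1, (w.2.2, w.2.1)), by fun_prop⟩
def BP (Z : Type) [TopologicalSpace Z] (a : AA 3) : C(Z × (AA 3 × AA 3), Z × AA 3) :=
  ⟨fun w => (w.1, a), by fun_prop⟩

/-- retraction of `Z × A` -/
def gA (Z : Type) [TopologicalSpace Z] : C(Z × SA, Z × AA 3) :=
  ⟨fun w => (w.1, ⟨w.2.1.1.1, w.2.2⟩), by fun_prop⟩
def sA (Z : Type) [TopologicalSpace Z] : C(Z × AA 3, Z × SA) :=
  ⟨fun w => (w.1, ⟨⟨(w.2.1, 0), ne_of_fst w.2.2⟩, w.2.2⟩), by fun_prop⟩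
def gB (Z : Type) [TopologicalSpace Z] : C(Z × SB, Z × AA 3) :=
  ⟨fun w => (w.1, ⟨w.2.1.1.2, w.2.2⟩), by fun_prop⟩
def sB (Z : Type) [TopologicalSpace Z] : C(Z × AA 3, Z × SB) :=
  ⟨fun w => (w.1, ⟨⟨(0, w.2.1), ne_of_snd w.2.2⟩, w.2.2⟩), by fun_prop⟩

theorem homA : ((sA Z).comp (gA Z)).Homotopic (ContinuousMap.id (Z × SA)) := by
  refine ⟨{ toFun := fun p => (p.2.1, ⟨⟨(p.2.2.1.1.1, (p.1 : ℝ) • p.2.2.1.1.2),
              ne_of_fst p.2.2.2⟩, p.2.2.2⟩)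
            continuous_toFun := by fun_prop
            map_zero_left := fun w => ?_
            map_one_left := fun w => ?_ }⟩
  · refine Prod.ext rfl (Subtype.ext (Subtype.ext ?_))
    simp [sA, gA]
  · refine Prod.ext rfl (Subtype.ext (Subtype.ext ?_))
    simp

theorem homB : ((sB Z).comp (gB Z)).Homotopic (ContinuousMap.id (Z × SB)) := by
  refine ⟨{ toFun := fun p => (p.2.1, ⟨⟨((p.1 : ℝ) • p.2.2.1.1.1, p.2.2.1.1.2),
              ne_of_snd p.2.2.2⟩, p.2.2.2⟩)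
            continuous_toFun := by fun_prop
            map_zero_left := fun w => ?_
            map_one_left := fun w => ?_ }⟩
  · refine Prod.ext rfl (Subtype.ext (Subtype.ext ?_))
    simp [sB, gB]
  · refine Prod.ext rfl (Subtype.ext (Subtype.ext ?_))
    simp

theorem injA (hHI : T_HI) {q : ℕ} (x : HH ℚ q (Z × SA)) (h : HH.map ℚ q (gA Z) x = 0) : x = 0 := by
  have h1 := hHI _ _ _ _ (homA (Z := Z)) q
  have h2 : HH.map ℚ q ((sA Z).comp (gA Z)) x = x := by rw [h1, HH.map_id]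
  rw [← h2, HH.map_comp, h, map_zero]

theorem injB (hHI : T_HI) {q : ℕ} (x : HH ℚ q (Z × SB)) (h : HH.map ℚ q (gB Z) x = 0) : x = 0 := by
  have h1 := hHI _ _ _ _ (homB (Z := Z)) q
  have h2 : HH.map ℚ q ((sB Z).comp (gB Z)) x = x := by rw [h1, HH.map_id]
  rw [← h2, HH.map_comp, h, map_zero]

theorem sw (hMV : T_MVP) (hHI : T_HI) : T_SW := by
  intro Z _ q a x
  obtain ⟨D, -, D2, -, -, D5⟩ := hMV Z W SA SB isOpen_SA isOpen_SB union_eq
  set x' : HH ℚ q (Z × (AA 3 × AA 3)) := x - HH.map ℚ q (A1 Z a) (HH.map ℚ q (p1 Z) x) -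
    HH.map ℚ q (A2 Z a) (HH.map ℚ q (p2 Z) x) + HH.map ℚ q (A0 Z a) (HH.map ℚ q (p0 Z) x) with hx'
  have hp1 : HH.map ℚ q (p1 Z) x' = 0 := by
    rw [hx', map_add, map_sub, map_sub]
    have e1 : HH.map ℚ q (p1 Z) (HH.map ℚ q (A1 Z a) (HH.map ℚ q (p1 Z) x)) =
        HH.map ℚ q (p1 Z) x := by
      rw [mc (A1 Z a) (p1 Z) (ContinuousMap.id _) (fun _ => rfl), HH.map_id]
    have e2 : HH.map ℚ q (p1 Z) (HH.map ℚ q (A2 Z a) (HH.map ℚ q (p2 Z) x)) =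
        HH.map ℚ q (BP Z a) x := by
      rw [mc (p2 Z) (A2 Z a) ((A2 Z a).comp (p2 Z)) (fun _ => rfl),
        mc _ (p1 Z) (BP Z a) (fun _ => rfl)]
    have e3 : HH.map ℚ q (p1 Z) (HH.map ℚ q (A0 Z a) (HH.map ℚ q (p0 Z) x)) =
        HH.map ℚ q (BP Z a) x := by
      rw [mc (p0 Z) (A0 Z a) ((A0 Z a).comp (p0 Z)) (fun _ => rfl),
        mc _ (p1 Z) (BP Z a) (fun _ => rfl)]
    rw [e1, e2, e3]
    abel
  have hp2 : HH.map ℚ q (p2 Z) x' = 0 := by
    rw [hx', map_add, map_sub, map_sub]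
    have e1 : HH.map ℚ q (p2 Z) (HH.map ℚ q (A2 Z a) (HH.map ℚ q (p2 Z) x)) =
        HH.map ℚ q (p2 Z) x := by
      rw [mc (A2 Z a) (p2 Z) (ContinuousMap.id _) (fun _ => rfl), HH.map_id]
    have e2 : HH.map ℚ q (p2 Z) (HH.map ℚ q (A1 Z a) (HH.map ℚ q (p1 Z) x)) =
        HH.map ℚ q (BP Z a) x := by
      rw [mc (p1 Z) (A1 Z a) ((A1 Z a).comp (p1 Z)) (fun _ => rfl),
        mc _ (p2 Z) (BP Z a) (fun _ => rfl)]
    have e3 : HH.map ℚ q (p2 Z) (HH.map ℚ q (A0 Z a) (HH.map ℚ q (p0 Z) x)) =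
        HH.map ℚ q (BP Z a) x := by
      rw [mc (p0 Z) (A0 Z a) ((A0 Z a).comp (p0 Z)) (fun _ => rfl),
        mc _ (p2 Z) (BP Z a) (fun _ => rfl)]
    rw [e1, e2, e3]
    abel
  set X : HH ℚ q (Z × ↥(SA ∩ SB)) := HH.map ℚ q (zm Z iP) x' with hX
  obtain ⟨w, hw⟩ := D2 q X (by
    apply injA hHI
    rw [hX, mc _ _ ((zm Z (inc (inter_subset_left : SA ∩ SB ⊆ SA))).comp (zm Z iP)) (fun _ => rfl),
      mc _ _ (p1 Z) (fun _ => rfl), hp1]) (by
    apply injB hHI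
    rw [hX, mc _ _ ((zm Z (inc (inter_subset_right : SA ∩ SB ⊆ SB))).comp (zm Z iP)) (fun _ => rfl),
      mc _ _ (p2 Z) (fun _ => rfl), hp2])
  have h5 := D5 tau tau_AB tau_BA tau_cap q w
  have h6 : HH.map ℚ (q + 1) (zm Z tau) w = w := by
    have h7 := hHI _ _ _ _ (zm_hom Z (hom1.trans hom2)) (q + 1)
    rw [← h7]
    have : zm Z (ContinuousMap.id W) = ContinuousMap.id _ := by
      ext1 p
      rfl
    rw [this, HH.map_id]
  rw [h6, hw] at h5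
  have h8 : x' + HH.map ℚ q (Sw Z) x' = 0 := by
    have e1 : x' = HH.map ℚ q (zm Z jP) X := by
      rw [hX, mc _ _ (ContinuousMap.id _) (fun _ => rfl), HH.map_id]
    have e2 : HH.map ℚ q (Sw Z) x' =
        HH.map ℚ q (zm Z jP) (HH.map ℚ q (zm Z (rst tau tau_cap)) X) := by
      rw [hX, mc _ _ ((zm Z (rst tau tau_cap)).comp (zm Z iP)) (fun _ => rfl),
        mc _ _ (Sw Z) (fun _ => rfl)]
    rw [e2]
    conv_lhs => rw [e1]
    have h9 : X + HH.map ℚ q (zm Z (rst tau tau_cap)) X = 0 := eq_neg_iff_add_eq_zero.1 h5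
    rw [← map_add, h9, map_zero]
  refine ⟨HH.map ℚ q (p1 Z) x + HH.map ℚ q (p2 Z) x - 2 • HH.map ℚ q (BP Z a) x,
    HH.map ℚ q (p2 Z) x + HH.map ℚ q (p1 Z) x, ?_⟩
  change x + HH.map ℚ q (Sw Z) x = HH.map ℚ q (A1 Z a) _ + HH.map ℚ q (A2 Z a) _
  have t1 : HH.map ℚ q (Sw Z) (HH.map ℚ q (A1 Z a) (HH.map ℚ q (p1 Z) x)) =
      HH.map ℚ q (A2 Z a) (HH.map ℚ q (p1 Z) x) := mc _ _ _ (fun _ => rfl) _
  have t2 : HH.map ℚ q (Sw Z) (HH.map ℚ q (A2 Z a) (HH.map ℚ q (p2 Z) x)) =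
      HH.map ℚ q (A1 Z a) (HH.map ℚ q (p2 Z) x) := mc _ _ _ (fun _ => rfl) _
  have t3 : HH.map ℚ q (Sw Z) (HH.map ℚ q (A0 Z a) (HH.map ℚ q (p0 Z) x)) =
      HH.map ℚ q (A0 Z a) (HH.map ℚ q (p0 Z) x) := mc _ _ _ (fun _ => rfl) _
  have t4 : HH.map ℚ q (A1 Z a) (HH.map ℚ q (BP Z a) x) =
      HH.map ℚ q (A0 Z a) (HH.map ℚ q (p0 Z) x) := by
    rw [mc (p0 Z) (A0 Z a) ((A0 Z a).comp (p0 Z)) (fun _ => rfl)]
    exact mc _ _ _ (fun _ => rfl) _
  rw [hx', map_add, map_sub, map_sub, t1, t2, t3] at h8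
  rw [map_sub, map_nsmul, map_add, map_add, t4, ← sub_eq_zero, ← h8]
  abel

end

end Pool.Agent.H67.SPM.SW
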